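import Pool.Agent.Helper82.BR.St

/-! # Project BR, module TR: transfer to the complex plane -/

set_option autoImplicit false

namespace Pool.Agent.Helper41.BR

open Pool.Agent.Helper82.BR

theorem hTR : StTR := by
  classical
  intro S hS
  obtain ⟨hfin, h2, hb⟩ := hS
  set e := Complex.orthonormalBasisOneI.repr with he
  set T : Finset ℂ := hfin.toFinset.image e.symm with hT
  have hmem : ∀ z, z ∈ T ↔ e z ∈ S := by
    intro z
    rw [hT, Finset.mem_image]
    constructor
    · rintro ⟨x, hx, rfl⟩
      rw [LinearIsometryEquiv.apply_symm_apply]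
      exact hfin.mem_toFinset.1 hx
    · intro h
      exact ⟨e z, hfin.mem_toFinset.2 h, LinearIsometryEquiv.symm_apply_apply _ _⟩
  refine ⟨T, hmem, ?_, ?_⟩
  · rw [hT, Finset.card_image_of_injective _ e.symm.injective, Set.ncard_eq_toFinset_card _ hfin]
  · intro p hp q hq hpq
    have h1 := hb (e p) ((hmem p).1 hp) (e q) ((hmem q).1 hq) (fun h => hpq (e.injective h))
    have h3 : ((AffineSubspace.perpBisector (e p) (e q) : Set Plane) ∩ S).ncard =
        (T.filter (fun s => dist s p = dist s q)).card := by
      have h4 : ((AffineSubspace.perpBisector (e p) (e q) : Set Plane) ∩ S) =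
          e '' (T.filter (fun s => dist s p = dist s q) : Finset ℂ) := by
        ext x
        simp only [Set.mem_inter_iff, Set.mem_image, Finset.mem_filter, SetLike.mem_coe]
        rw [AffineSubspace.mem_perpBisector_iff_dist_eq]
        constructor
        · rintro ⟨hd, hx⟩
          refine ⟨e.symm x, ⟨(hmem _).2 (by rwa [LinearIsometryEquiv.apply_symm_apply]), ?_⟩,
            LinearIsometryEquiv.apply_symm_apply _ _⟩
          rw [← e.dist_map, ← e.dist_map (e.symm x) q, LinearIsometryEquiv.apply_symm_apply]
          exact hd
        · rintro ⟨z, ⟨hz, hd⟩, rfl⟩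
          refine ⟨?_, (hmem z).1 hz⟩
          rw [e.dist_map, e.dist_map]
          exact hd
      rw [h4, Set.ncard_image_of_injective _ e.injective, Set.ncard_coe_finset]
    rw [h3] at h1
    exact h1

end Pool.Agent.Helper41.BR
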